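import Pool.Agent.H724.ST.Stm
import Pool.Agent.H724.DL.Stm

/-!
# Star problem: the family of checkers coming from project DL
-/

set_option autoImplicit false

namespace Pool.Agent.H724.ST

open Pool.Agent.H724.DL (Pay RS DS Act act dn drun Imm Tiled lok)

/-- **ST-TAB.** The tables.

PROOF.  `Pay Γ` and `DS W` are finite (instances in `DL/Basic.lean`), nonempty.  Let `p = card (Pay Γ)`, `D = card (DS W)`,
`e : Pay Γ ≃ Fin p` arbitrary and `st : DS W ≃ Fin D` with `st idle = 0` (compose with a transposition).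
`T1` = list of `decide (lok (e.symm x))`, `x < p` (`List.ofFn`); `T2` of length `p * p`: entry `x * p + y` is
`decide ((e.symm y).ph = (e.symm x).ph + 1)` (`List.ofFn` over `Fin (p * p)` with `/ p`, `% p`).
`dn R n (some (d, i)) P P'` depends only on `(d, i = n, P, P')`: it is `(dstep R (decide (i = n)) d P P').map (d', act n h i)`.
`G` of length `D * 2 * p * p`: the entry with index `((d * 2 + f) * p + x) * p + y` (`f = 0, 1`) is `0` if
`dstep R (f = 1) (st.symm d) (e.symm x) (e.symm y) = none`, and `1 + st d' * 3 + h` if it is `some (d', h)` (`h = 0, 1, 2` for `zero, keep, inc`).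
For `q = 1 + d * (n + 2) + i`, `i < n + 2`: `(q - 1) / (n + 2) = d`, `(q - 1) % (n + 2) = i`.
`WF`: `p ≥ 1`, `N = D * (n + 2) ≥ 1`, and `dl ≤ N` for all arguments: every entry `v ≠ 0` of `G` has `(v - 1) / 3 < D` (and `getD` gives
`0` outside), the counter part is `≤ n + 1`. -/
def S_TAB : Prop :=
  ∀ (Γ W : Type) [Finite Γ] [Finite W] [Nonempty Γ] (R : RS Γ W),
    ∃ (D p : ℕ) (G : List ℕ) (T1 T2 : List Bool) (e : Pay Γ ≃ Fin p) (st : DS W ≃ Fin D),
      (st DS.idle).val = 0 ∧ ∀ n,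
        WF (CT D p G T1 T2 n) ∧
        (∀ P, (CT D p G T1 T2 n).l1 (e P).val = true ↔ lok P) ∧
        (∀ P P', (CT D p G T1 T2 n).l2 (e P).val (e P').val = true ↔ P'.ph = P.ph + 1) ∧
        (∀ (d : DS W) (i : Fin (n + 2)) (P P' : Pay Γ),
          (dn R n (some (d, i)) P P' = none →
            (CT D p G T1 T2 n).dl (1 + (st d).val * (n + 2) + i.val) (e P).val (e P').val = 0) ∧
          ∀ d' i', dn R n (some (d, i)) P P' = some (d', i') →
            (CT D p G T1 T2 n).dl (1 + (st d).val * (n + 2) + i.val) (e P).val (e P').val =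
              1 + (st d').val * (n + 2) + i'.val)

/-- **ST-BR** (uses `S_TAB`). Immortal pairs of the two kinds correspond.

PROOF.  With `e`, `st` of `S_TAB`.  (2) `x i = e (X i)`, `y i = e (Y i)`.  `run C x y i j t` is `0` if `drun R n X Y i j t = none` and
`1 + st d * (n + 2) + c` if it is `some (d, c)` (induction on `t`; the start value `(idle, 0)` gives `1`), so it is never `0`.
(3) `x i < p` for all `i` (`cx (i+1)`): `X i = e.symm ⟨x i, _⟩`; the same correspondence; `x i = x j → X i = X j` is clear. -/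
def S_BR : Prop :=
  ∀ (Γ W : Type) [Finite Γ] [Finite W] [Nonempty Γ] (R : RS Γ W),
    ∃ (D p : ℕ) (G : List ℕ) (T1 T2 : List Bool), ∀ n,
      WF (CT D p G T1 T2 n) ∧
      ((∃ X Y, Imm R n X Y) → ∃ x y, ImmC (CT D p G T1 T2 n) x y) ∧
      (∀ x y, ImmC (CT D p G T1 T2 n) x y →
        ∃ X Y : ℕ → Pay Γ, Imm R n X Y ∧ ∀ i j, x i = x j → X i = X j)

/-- What is used from project DL. -/
structure DLfacts : Prop where
  nf : Pool.Agent.H724.DL.S_NF
  til : Pool.Agent.H724.DL.S_TIL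
  step : Pool.Agent.H724.DL.S_STEP
  per : Pool.Agent.H724.DL.S_PER
  m : Pool.Agent.H724.DL.S_M

/-- Star of a trace language presented by a relation of words. -/
theorem accd_eq {k : ℕ} (I : Fin k → Fin k → Prop) (c : List (List ℕ) × List ℕ)
    (K : Set (List (Fin k))) (h : ∀ w : List (Fin k), w.foldl (next c) 0 ∈ c.2 ↔ w ∈ K) :
    accd I c = trace k I '' K := by
  ext m
  simp only [accd, Set.mem_image]
  constructor
  · rintro ⟨w, hw, hc⟩
    exact ⟨w, (h w).1 hc, hw⟩
  · rintro ⟨w, hw, hc⟩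
    exact ⟨w, hc, (h w).2 hw⟩

/-- The core equivalence for one checker: `L*` is recognizable iff there is no immortal pair. -/
theorem core_iff (hB2 : S_B2) (hR : S_REC) (hCP : S_CP) (C : Chk) (hC : WF C)
    (hper : ∀ x y, ImmC C x y → ∀ p n0 : ℕ, 0 < p → ∃ i, n0 ≤ i ∧ x (i + p) ≠ x i) :
    MezN (StP (Lp C)) ↔ ¬ ∃ x y, ImmC C x y := by
  constructor
  · rintro hM ⟨x, y, hI⟩
    obtain ⟨n1, p1, n2, p2, hp1, hp2, hI'⟩ := hB2 C hC hM x y hI
    obtain ⟨i, hi, hne⟩ := hper _ _ hI' p1 n1 hp1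
    apply hne
    have h1 : ¬ i < n1 := by omega
    have h2 : ¬ i + p1 < n1 := by omega
    simp only [h1, h2, if_false]
    congr 2
    rw [show i + p1 - n1 = i - n1 + p1 by omega, Nat.add_mod_right]
  · intro h
    obtain ⟨T, hT⟩ := hCP C hC h
    exact hR C hC T hT

theorem main (dl : DLfacts) (hBR : S_BR) (hB2 : S_B2) (hR : S_REC) (hCP : S_CP) (hMZ : S_MZ)
    (hT1 : S_TR1) (hT2 : S_TR2) (hP3 : S_P3) (hP4 : S_P4)
    (k : ℕ) (I : Fin k → Fin k → Prop) (hs : ∀ e f, I e f → I f e) (hi : ∀ e, ¬ I e e)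
    (hc : ∃ a b c d, IsC4 I a b c d) :
    ¬ ∃ f : List (List ℕ) × List ℕ → Bool, Computable f ∧ ∀ c, IsAut I c →
      (f c = true ↔ Recognizable (Submonoid.closure (accd I c) : Set (TraceMonoid k I))) := by
  rintro ⟨f, hf, hspec⟩
  obtain ⟨a, b, c, d, h4⟩ := hc
  obtain ⟨Γ, W, hΓ, hW, R, hun⟩ := dl.m
  apply hun
  by_cases hne : Nonempty Γ
  · obtain ⟨D, p, G, T1, T2, hb⟩ := hBR Γ W R
    have hcomp : Computable fun n : ℕ => f (codeC (HL a b c d) (CT D p G T1 T2 n)) :=
      hf.comp (hP3 D p G T1 T2 (HL a b c d))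
    refine ⟨fun n => Classical.propDecidable _, ?_⟩
    refine hcomp.of_eq ?_
    intro n
    apply Bool.eq_iff_iff.2
    simp only [decide_eq_true_iff]
    obtain ⟨hwf, hb1, hb2⟩ := hb n
    obtain ⟨haut, hacc⟩ := hP4 (CT D p G T1 T2 n) k I hs hi a b c d h4
    rw [hspec _ haut, accd_eq I _ _ hacc]
    have key : (∃ x y, ImmC (CT D p G T1 T2 n) x y) ↔ Tiled R n := by
      constructor
      · rintro ⟨x, y, h⟩
        obtain ⟨X, Y, hI, -⟩ := hb2 x y h
        exact dl.til Γ W R n X Y hI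
      · intro h
        exact hb1 (dl.nf Γ W R n h)
    have hper : ∀ x y, ImmC (CT D p G T1 T2 n) x y →
        ∀ p n0 : ℕ, 0 < p → ∃ i, n0 ≤ i ∧ x (i + p) ≠ x i := by
      intro x y h q n0 hq
      obtain ⟨X, Y, hI, hxX⟩ := hb2 x y h
      obtain ⟨al, be, N, hN⟩ := dl.step Γ W R n X Y hI
      obtain ⟨i, h1, h2⟩ := dl.per Γ X (fun m => ⟨al m, N m, (hN m).1⟩) q n0 hq
      exact ⟨i, h1, fun he => h2 (hxX _ _ he)⟩
    rw [← key, ← core_iff hB2 hR hCP _ hwf hper]
    constructor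
    · intro h
      exact hT1 k I hs hi a b c d h4 _ h
    · intro h
      exact hT2 k I hs hi a b c d h4 _ ((hMZ.2.2.2.2 _).1 h)
  · refine ⟨fun n => Classical.propDecidable _, ?_⟩
    refine (Computable.const true).of_eq ?_
    intro n
    apply Eq.symm
    simp only [decide_eq_true_iff]
    rintro ⟨cc, -⟩
    exact hne ⟨cc 0 0⟩

end Pool.Agent.H724.ST
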