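import Pool.Agent.H724.ST.Br
import Pool.Agent.H724.DL.Asm
import Pool.Agent.H724.DL.Mch
import Pool.Agent.H724.DL.P.F0PER
import Pool.Agent.H724.DL.P.SEG
import Pool.Agent.H724.DL.P.LET
import Pool.Agent.H724.DL.P.LOCK
import Pool.Agent.H724.DL.P.PATPD
import Pool.Agent.H724.DL.P.STEP1
import Pool.Agent.H724.DL.P.STEP
import Pool.Agent.H724.DL.P.COL
import Pool.Agent.H724.DL.P.ROW
import Pool.Agent.H724.DL.P.TIL
import Pool.Agent.H724.DL.P.CAN
import Pool.Agent.H724.DL.P.INV1
import Pool.Agent.H724.DL.P.INV2a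
import Pool.Agent.H724.DL.P.INV2b
import Pool.Agent.H724.DL.P.INV2c
import Pool.Agent.H724.DL.P.INV2d
import Pool.Agent.H724.DL.P.INV2e
import Pool.Agent.H724.DL.P.NF
import Pool.Agent.H724.DL.P.M0
import Pool.Agent.H724.DL.P.M1
import Pool.Agent.H724.DL.P.M2

/-!
# Star problem: the facts used from project DL
-/

set_option autoImplicit false

namespace Pool.Agent.H724.ST

open Pool.Agent

theorem dlfacts : DLfacts := by
  have can_ := Pool.Agent.H729.DL.can_
  have col := Pool.Agent.H118.DL.col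
  have lock := Pool.Agent.H390.DL.lock Pool.Agent.H127.DLSEG.seg Pool.Agent.H400.DLLET.let_
  have step := Pool.Agent.H177.DL.step Pool.Agent.H724.DL.f0
    (Pool.Agent.H980.DLstep.step1 lock Pool.Agent.H441.DL.pat)
  have row := Pool.Agent.H796.DLRow.row lock (Pool.Agent.H441.DL.pd lock) col
  have m0 := Pool.Agent.H672.DL.m0
  exact {
    nf := Pool.Agent.H921.DLNF.nf (Pool.Agent.H724.DLINV1.inv1 can_)
      (H724.DL.inv2_of (Pool.Agent.H553.DL.inv2a can_) (Pool.Agent.H603.DLI.inv2b can_)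
        (Pool.Agent.H980.DLinv.inv2c can_ col) (Pool.Agent.H264.DLInv2d.inv2d can_)
        (Pool.Agent.H190.DL.inv2e can_ col))
    til := Pool.Agent.H155.DLT.til step row
    step := step
    per := Pool.Agent.H724.DL.per
    m := H724.DL.s_m (Pool.Agent.H872.DLM1.m1 m0) (Pool.Agent.H195.DLM2.m2 m0) }

end Pool.Agent.H724.ST
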