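import Mathlib

/-!
# Star problem: definitions

Project ST (helper724): the star problem is undecidable in every trace monoid containing C4.

A finite checker `C` reads two tapes synchronously: `p` letters `0, ..., p-1`, states `1, ..., N`
(`1` = idle), `dl q x y` the new state after reading the pair of letters `(x, y)`, `0` = violation found.
The letters of a tape have to satisfy the local conditions `l1`, `l2` (consecutive letters).

Coding over the alphabet `Bool` (`false` = `a` resp. `b`, `true` = `c` resp. `d`), `M = N + 1`: the letter `x`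
is the run of `(x+1) * M` letters `false`, two runs are separated by one letter `true`.  A position in the
run after `q` letters `false`, `1 ≤ q ≤ N`, codes the state `q`.
-/

set_option autoImplicit false

namespace Pool.Agent.H724.ST

/-- A finite checker. -/
structure Chk where
  p : ℕ
  N : ℕ
  dl : ℕ → ℕ → ℕ → ℕ
  l1 : ℕ → Bool
  l2 : ℕ → ℕ → Bool

/-- Well-formed checkers. -/
structure WF (C : Chk) : Prop where
  hp : 1 ≤ C.p
  hN : 1 ≤ C.N
  hd : ∀ q x y, C.dl q x y ≤ C.N

/-- The largest length of a run. -/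
def Chk.E (C : Chk) : ℕ := C.p * (C.N + 1)

/-- Is `e` the length of a complete run of an admissible letter? -/
def good (C : Chk) (e : ℕ) : Bool :=
  decide (e % (C.N + 1) = 0) && decide (0 < e) && decide (e ≤ C.E) && C.l1 (e / (C.N + 1) - 1)

/-- One step of the scanner.  State `(t, al, l, g)`: `t` = number of letters `true` read so far (`2` = at
least two, `3` = the word is not a factor of a coded tape), `al` = length of the first run, `l` = length of
the last complete inner run, `g` = length of the current run. -/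
def scs (C : Chk) (s : ℕ × ℕ × ℕ × ℕ) (b : Bool) : ℕ × ℕ × ℕ × ℕ :=
  if s.1 = 0 then
    if b = true then (1, s.2.1, 0, 0)
    else if s.2.1 < C.E then (0, s.2.1 + 1, 0, 0) else (3, 0, 0, 0)
  else if s.1 = 1 then
    if b = true then (if good C s.2.2.2 = true then (2, s.2.1, s.2.2.2, 0) else (3, 0, 0, 0))
    else if s.2.2.2 < C.E then (1, s.2.1, 0, s.2.2.2 + 1) else (3, 0, 0, 0)
  else if s.1 = 2 then
    if b = true then
      (if good C s.2.2.2 = true ∧
          C.l2 (s.2.2.1 / (C.N + 1) - 1) (s.2.2.2 / (C.N + 1) - 1) = true then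
        (2, s.2.1, s.2.2.2, 0) else (3, 0, 0, 0))
    else if s.2.2.2 < C.E then (2, s.2.1, s.2.2.1, s.2.2.2 + 1) else (3, 0, 0, 0)
  else (3, 0, 0, 0)

/-- The scanner. -/
def sc (C : Chk) (u : List Bool) : ℕ × ℕ × ℕ × ℕ := u.foldl (scs C) (0, 0, 0, 0)

/-- The words which look like factors of coded tapes. -/
def OK (C : Chk) (u : List Bool) : Prop := (sc C u).1 ≠ 3

/-- Is the pair of scanned words in `L`?  (1), (2): one of them is not `OK`; (3), (4): one letter of one
tape, in the idle state; (5): one step of the checker, or restart; (6): violation found, arbitrary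
continuation. -/
def acc (C : Chk) (s t : ℕ × ℕ × ℕ × ℕ) : Bool :=
  decide (s.1 = 3) || decide (t.1 = 3) ||
  (decide (s.1 = 1) && decide (s.2.1 % (C.N + 1) = C.N) && decide (s.2.2.2 = 1) &&
    decide (t = (0, 0, 0, 0))) ||
  (decide (t.1 = 1) && decide (t.2.1 % (C.N + 1) = C.N) && decide (t.2.2.2 = 1) &&
    decide (s = (0, 0, 0, 0))) ||
  (decide (s.1 = 1) && decide (t.1 = 1) && decide (s.2.1 % (C.N + 1) = t.2.1 % (C.N + 1)) &&
    decide (s.2.1 % (C.N + 1) ≠ 0) && decide (s.2.2.2 = t.2.2.2) && decide (s.2.2.2 ≠ 0) &&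
    (decide (s.2.2.2 = 1) || decide (s.2.2.2 =
      C.dl (C.N + 1 - s.2.1 % (C.N + 1)) (s.2.1 / (C.N + 1)) (t.2.1 / (C.N + 1))))) ||
  ((decide (s.1 = 1) || decide (s.1 = 2)) && (decide (t.1 = 1) || decide (t.1 = 2)) &&
    decide (s.2.1 % (C.N + 1) = t.2.1 % (C.N + 1)) && decide (s.2.1 % (C.N + 1) ≠ 0) &&
    decide (C.dl (C.N + 1 - s.2.1 % (C.N + 1)) (s.2.1 / (C.N + 1)) (t.2.1 / (C.N + 1)) = 0))

/-- The recognizable relation `L`. -/
def Lp (C : Chk) (u v : List Bool) : Prop := acc C (sc C u) (sc C v) = true

/-- The star of a relation (submonoid of the product of two free monoids). -/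
inductive StP (L : List Bool → List Bool → Prop) : List Bool → List Bool → Prop
  | nil : StP L [] []
  | cons {u v u' v' : List Bool} : L u v → StP L u' v' → StP L (u ++ u') (v ++ v')

/-- Runs. -/
def rn (n : ℕ) : List Bool := List.replicate n false

/-- The piece coding the letter `x` in the idle state. -/
def blk (C : Chk) (x : ℕ) : List Bool := rn ((x + 1) * (C.N + 1) - 1) ++ [true, false]

/-- The first `i` letters of a tape, coded (from the idle state to the idle state). -/
def blks (C : Chk) (x : ℕ → ℕ) : ℕ → List Bool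
  | 0 => []
  | i + 1 => blks C x i ++ blk C (x i)

/-- Admissible tapes (first `m` letters). -/
def Cons (C : Chk) (x : ℕ → ℕ) (m : ℕ) : Prop :=
  (∀ i, i < m → x i < C.p ∧ C.l1 (x i) = true) ∧ ∀ i, i + 1 < m → C.l2 (x i) (x (i + 1)) = true

/-- The checker started at positions `i`, `j` in the idle state, after `t` pairs. -/
def run (C : Chk) (x y : ℕ → ℕ) (i j : ℕ) : ℕ → ℕ
  | 0 => 1
  | t + 1 => if run C x y i j t = 0 then 0 else C.dl (run C x y i j t) (x (i + t)) (y (j + t))

/-- Immortal pairs of tapes. -/
structure ImmC (C : Chk) (x y : ℕ → ℕ) : Prop where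
  cx : ∀ m, Cons C x m
  cy : ∀ m, Cons C y m
  nf : ∀ i j t, run C x y i j t ≠ 0

/-- Every pair of admissible tapes of length `T` has a violation. -/
def Mort (C : Chk) (T : ℕ) : Prop :=
  ∀ x y : ℕ → ℕ, Cons C x T → Cons C y T →
    ∃ i j t, i + t ≤ T ∧ j + t ≤ T ∧ run C x y i j t = 0

/-- Regular languages, Myhill-Nerode form. -/
def Reg (A : Set (List Bool)) : Prop := (Set.range fun v => {z | v ++ z ∈ A}).Finite

/-- Recognizable relations, Myhill-Nerode form. -/
def MezN (Z : List Bool → List Bool → Prop) : Prop :=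
  (Set.range fun u => {r : List Bool × List Bool | Z (u ++ r.1) r.2}).Finite ∧
  (Set.range fun v => {r : List Bool × List Bool | Z r.1 (v ++ r.2)}).Finite

/-- Recognizable relations, by two finite automata. -/
def Mez (Z : List Bool → List Bool → Prop) : Prop :=
  ∃ (σ τ : Type) (_ : Finite σ) (_ : Finite τ) (f : σ → Bool → σ) (s0 : σ) (g : τ → Bool → τ) (t0 : τ)
    (F : Set (σ × τ)), ∀ u v, Z u v ↔ (u.foldl f s0, v.foldl g t0) ∈ F

/-! ## The family of checkers and its code -/

/-- The transition function given by a table `G`; the state `q` is `1 + d * (n + 2) + i` with the control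
state `d` and the counter value `i ≤ n + 1`; a table entry `0` is a violation, the entry
`1 + d' * 3 + h` is the new control state `d'` and the action `h` (0 zero, 1 keep, 2 increment). -/
def dlT (p : ℕ) (G : List ℕ) (n q x y : ℕ) : ℕ :=
  if G.getD ((((q - 1) / (n + 2) * 2 + (if (q - 1) % (n + 2) = n then 1 else 0)) * p + x) * p + y) 0
      = 0 then 0
  else 1 + (G.getD ((((q - 1) / (n + 2) * 2 + (if (q - 1) % (n + 2) = n then 1 else 0)) * p + x) * p
        + y) 0 - 1) / 3 * (n + 2) +
    (if (G.getD ((((q - 1) / (n + 2) * 2 + (if (q - 1) % (n + 2) = n then 1 else 0)) * p + x) * p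
        + y) 0 - 1) % 3 = 0 then 0
      else if (G.getD ((((q - 1) / (n + 2) * 2 + (if (q - 1) % (n + 2) = n then 1 else 0)) * p + x) * p
        + y) 0 - 1) % 3 = 1 then (q - 1) % (n + 2)
      else min ((q - 1) % (n + 2) + 1) (n + 1))

/-- The family of checkers. -/
def CT (D p : ℕ) (G : List ℕ) (T1 T2 : List Bool) (n : ℕ) : Chk where
  p := p
  N := D * (n + 2)
  dl := dlT p G n
  l1 := fun x => T1.getD x false
  l2 := fun x y => T2.getD (x * p + y) false

end Pool.Agent.H724.ST
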