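import Pool.Agent.H724.ST.Stm

/-!
# Star problem: presentation of recognizable sets by finite monoids

Code of a finite monoid `S` with a homomorphism from the trace monoid and a subset of `S`: `c.1` is the
multiplication table of `S = {0, ..., N-1}`, `N = c.1.length`, `c.2.1` the unit, `c.2.2.1` the list of the images of
the letters, `c.2.2.2` the list of the elements of the subset.
-/

set_option autoImplicit false

namespace Pool.Agent.H724.ST

/-- Product of two elements. -/
def mulC (c : List (List ℕ) × ℕ × List ℕ × List ℕ) (q r : ℕ) : ℕ := (c.1.getD q []).getD r 0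

/-- Image of a letter. -/
def genC {k : ℕ} (c : List (List ℕ) × ℕ × List ℕ × List ℕ) (a : Fin k) : ℕ := c.2.2.1.getD a 0

/-- The code describes a finite monoid and a homomorphism from the trace monoid to it. -/
def IsMon {k : ℕ} (I : Fin k → Fin k → Prop) (c : List (List ℕ) × ℕ × List ℕ × List ℕ) : Prop :=
  (∀ q < c.1.length, ∀ r < c.1.length, mulC c q r < c.1.length) ∧
  (∀ q < c.1.length, ∀ r < c.1.length, ∀ s < c.1.length,
    mulC c (mulC c q r) s = mulC c q (mulC c r s)) ∧
  c.2.1 < c.1.length ∧
  (∀ q < c.1.length, mulC c c.2.1 q = q ∧ mulC c q c.2.1 = q) ∧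
  (∀ a : Fin k, genC c a < c.1.length) ∧
  ∀ a b : Fin k, I a b → mulC c (genC c a) (genC c b) = mulC c (genC c b) (genC c a)

/-- The recognised set of traces. -/
def recd {k : ℕ} (I : Fin k → Fin k → Prop) (c : List (List ℕ) × ℕ × List ℕ × List ℕ) :
    Set (TraceMonoid k I) :=
  {m | ∃ w : List (Fin k), trace k I w = m ∧
    w.foldl (fun q a => mulC c q (genC c a)) c.2.1 ∈ c.2.2.2}

/-- The digit number `j` of `s` in base `N`: the number `s` codes the function `j ↦ dg N s j`. -/
def dgN (N s j : ℕ) : ℕ := s / N ^ j % N

/-- The code of the list of values of a function. -/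
def cdN (N : ℕ) (l : List ℕ) : ℕ := l.foldr (fun v r => v + N * r) 0

/-- The transition monoid of an automaton: all functions from the set of states to itself. -/
def monC (k : ℕ) (c : List (List ℕ) × List ℕ) : List (List ℕ) × ℕ × List ℕ × List ℕ :=
  ((List.range (c.1.length ^ c.1.length)).map fun s =>
      (List.range (c.1.length ^ c.1.length)).map fun t =>
        cdN c.1.length ((List.range c.1.length).map fun j =>
          dgN c.1.length t (dgN c.1.length s j)),
    cdN c.1.length (List.range c.1.length),
    (List.range k).map fun a =>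
      cdN c.1.length ((List.range c.1.length).map fun q => (c.1.getD q []).getD a 0),
    (List.range (c.1.length ^ c.1.length)).filter fun s => decide (dgN c.1.length s 0 ∈ c.2))

/-- **ST-MON1.** The transition monoid is computable.

PROOF.  `List.map`, `List.range`, `List.foldr`, `List.getD`, powers, quotients, remainders: `Primrec` (`List.filter` with a
decidable membership test: e.g. rewrite as `filterMap`, membership in a list by `List.any`/`foldr`, or by `List.idxOf`). -/
def S_MON1 : Prop := ∀ k : ℕ, Computable (monC k)

/-- **ST-MON2.** Correctness.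

PROOF.  Let `N = c.1.length > 0`.  For a list `l` of length `N` with entries `< N`: `cdN N l < N ^ N` and
`dgN N (cdN N l) j = l.getD j 0` for `j < N`; for `s < N ^ N`: `cdN N ((List.range N).map (dgN N s)) = s` (base `N` digits).
So `{s | s < N ^ N}` is identified with the functions from `{0, ..., N-1}` to itself, `mulC` is the composition
`(s * t) j = t (s j)` (associative, with unit `j ↦ j`), the letter `a` is mapped to `q ↦ next c q a` (`< N` by `IsAut`), the images of
independent letters commute by `IsAut`, and `dgN N (image of w) 0 = w.foldl (next c) 0`. -/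
def S_MON2 : Prop := ∀ (k : ℕ) (I : Fin k → Fin k → Prop) (c : List (List ℕ) × List ℕ), IsAut I c →
  IsMon I (monC k c) ∧ recd I (monC k c) = accd I c

/-- Undecidability for monoids from undecidability for automata. -/
theorem mon_of (h1 : S_MON1) (h2 : S_MON2) (k : ℕ) (I : Fin k → Fin k → Prop)
    (h : ¬ ∃ f : List (List ℕ) × List ℕ → Bool, Computable f ∧ ∀ c, IsAut I c →
      (f c = true ↔ Recognizable (Submonoid.closure (accd I c) : Set (TraceMonoid k I)))) :
    ¬ ∃ f : List (List ℕ) × ℕ × List ℕ × List ℕ → Bool, Computable f ∧ ∀ c, IsMon I c →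
      (f c = true ↔ Recognizable (Submonoid.closure (recd I c) : Set (TraceMonoid k I))) := by
  rintro ⟨f, hf, hspec⟩
  apply h
  refine ⟨fun c => f (monC k c), hf.comp (h1 k), ?_⟩
  intro c hc
  obtain ⟨h3, h4⟩ := h2 k I c hc
  rw [hspec _ h3, h4]

end Pool.Agent.H724.ST
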