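import Pool.Agent.H724.ST.DLf
import Pool.Agent.H724.ST.Mon
import Pool.Agent.H724.ST.P.SC
import Pool.Agent.H724.ST.P.SCF
import Pool.Agent.H724.ST.P.OK
import Pool.Agent.H724.ST.P.DEC
import Pool.Agent.H724.ST.P.GDSH
import Pool.Agent.H724.ST.P.OKU
import Pool.Agent.H724.ST.P.OKC
import Pool.Agent.H724.ST.P.PC
import Pool.Agent.H724.ST.P.VIO
import Pool.Agent.H724.ST.P.REC1
import Pool.Agent.H724.ST.P.INV
import Pool.Agent.H724.ST.P.EQ
import Pool.Agent.H724.ST.P.CUT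
import Pool.Agent.H724.ST.P.B1
import Pool.Agent.H724.ST.P.B2
import Pool.Agent.H724.ST.P.SEC
import Pool.Agent.H724.ST.P.MZ
import Pool.Agent.H724.ST.P.REC
import Pool.Agent.H724.ST.P.CP
import Pool.Agent.H724.ST.P.TR0
import Pool.Agent.H724.ST.P.TR2
import Pool.Agent.H724.ST.P.P1
import Pool.Agent.H724.ST.P.P2
import Pool.Agent.H724.ST.P.P3
import Pool.Agent.H724.ST.P.P40
import Pool.Agent.H724.ST.P.P4a
import Pool.Agent.H724.ST.P.P4b
import Pool.Agent.H724.ST.P.TAB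
import Pool.Agent.H724.ST.P.BR
import Pool.Agent.H724.ST.P.MON1
import Pool.Agent.H724.ST.P.MON2

/-!
# Star problem: assembly
-/

set_option autoImplicit false

namespace Pool.Agent.H724.ST

open Pool.Agent

theorem aut_undecidable (k : ℕ) (I : Fin k → Fin k → Prop) (hs : ∀ e f, I e f → I f e)
    (hi : ∀ e, ¬ I e e) (hc : ∃ a b c d, IsC4 I a b c d) :
    ¬ ∃ f : List (List ℕ) × List ℕ → Bool, Computable f ∧ ∀ c, IsAut I c →
      (f c = true ↔ Recognizable (Submonoid.closure (accd I c) : Set (TraceMonoid k I))) := by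
  have sc_ : S_SC := H686.STSC.sc_
  have scf : S_SCF := H967.ST.scf sc_
  have ok : S_OK := H686.STOK.ok
  have gd : S_GD := H549.ST.gd
  have pc : S_PC := H415.ST_PC.pc sc_
  have vio : S_VIO := H691.STV.vio pc
  have inv : S_INV := H658.STINV.inv sc_
  have mz : S_MZ := H596.STmz.mz
  have tr0 : S_TR0 := H596.STtr.tr0
  have p40 : S_P40 := H603.ST.p40
  have b1 : S_B1 := H903.STB1.b1 sc_ ok H284.STOKU.oku inv H357.STCut.cut
  have b2 : S_B2 := H903.STB2.b2 sc_ pc H726.ST.okc vio b1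
  have rec1 : S_REC1 := H404.ST.rec1 H686.STDEC.dec_ pc vio
  have eq_ : S_EQ := H286.STEQ.eq_ sc_ ok gd inv
  have rec_ : S_REC := H903.STREC.rec_ sc_ scf ok H549.ST.sh pc rec1 eq_ H139.sec_ mz
  exact main dlfacts (H249.STBR.br H195.STTab.tab) b2 rec_ H596.STcp.cp mz
    (H596.STtr.tr1 tr0) (H139.tr2_ tr0) (H729.STP3.p3 H196.ST.p1 H100.ST.p2)
    (p4_of (H747.STP4a.p4a p40) (H695.STP4b.p4b p40)) k I hs hi hc

theorem mon_undecidable (k : ℕ) (I : Fin k → Fin k → Prop) (hs : ∀ e f, I e f → I f e)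
    (hi : ∀ e, ¬ I e e) (hc : ∃ a b c d, IsC4 I a b c d) :
    ¬ ∃ f : List (List ℕ) × ℕ × List ℕ × List ℕ → Bool, Computable f ∧ ∀ c, IsMon I c →
      (f c = true ↔ Recognizable (Submonoid.closure (recd I c) : Set (TraceMonoid k I))) :=
  mon_of H796.STM.mon1 H30.STMON.mon2 k I (aut_undecidable k I hs hi hc)

end Pool.Agent.H724.ST
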