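import Pool.Agent.H724.ST.Defs

/-!
# Statements (interfaces) of the proof that the star problem is undecidable

Every `S_X : Prop` below is one sub-task with its full paper proof in the docstring.
Notation in the proofs: `a` = `false`, `c` = `true`, `M = N + 1`, `E = p * M`, `rn n` = `n` letters `a`,
`U_i = blks C x i`, `V_j = blks C y j`, `L* = StP (Lp C)`.
-/

set_option autoImplicit false

namespace Pool.Agent.H724.ST

/-! ## A. The scanner -/

/-- **ST-SC.** Shape of the scanned words.

PROOF.  (1)-(4): induction on the word from the right (`List.reverseRecOn`, `List.foldl_append`), by the definition of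
`scs`.  (5), (6): induction on `al`, `g`.  (7): scanning `rn al ++ true :: z`: all states are `(t, ...)` with `t ≠ 3` as `3` is
absorbing (`(scs C s b).1 = 3` if `s.1 = 3`); after `rn al` the state must be `(0, al, 0, 0)` with `al ≤ E`, after `true` it
is `(1, al, 0, 0)`, and from then on the second component stays `al` and the first one is `1` or `2` (or 3).
(8): `3` is absorbing. -/
def S_SC : Prop := ∀ C : Chk,
  (∀ u al l g, sc C u = (0, al, l, g) → u = rn al ∧ al ≤ C.E ∧ l = 0 ∧ g = 0) ∧
  (∀ u al l g, sc C u = (1, al, l, g) → u = rn al ++ true :: rn g ∧ al ≤ C.E ∧ g ≤ C.E ∧ l = 0) ∧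
  (∀ u al l g, sc C u = (2, al, l, g) → al ≤ C.E ∧ g ≤ C.E ∧ l ≤ C.E ∧ ∃ z, u = rn al ++ true :: z) ∧
  (∀ u, (sc C u).1 ≤ 3 ∧ ((sc C u).1 = 3 → sc C u = (3, 0, 0, 0))) ∧
  (∀ al, al ≤ C.E → sc C (rn al) = (0, al, 0, 0)) ∧
  (∀ al g, al ≤ C.E → g ≤ C.E → sc C (rn al ++ true :: rn g) = (1, al, 0, g)) ∧
  (∀ u al z, OK C u → u = rn al ++ true :: z →
    al ≤ C.E ∧ (sc C u).2.1 = al ∧ ((sc C u).1 = 1 ∨ (sc C u).1 = 2)) ∧
  (∀ u v, OK C (u ++ v) → OK C u)

/-- **ST-SCF.** The scanner has finitely many values (all components are `≤ E + 3`), hence `Lp C` is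
recognizable: `Lp C (u ++ r.1) r.2` depends only on `sc C u` (`List.foldl_append`), so the range in the definition of `MezN`
is the image of the finite set `Set.range (sc C)`. -/
def S_SCF : Prop := ∀ C : Chk, (Set.range (sc C)).Finite ∧ MezN (Lp C)

/-- **ST-OK.** `OK` is closed under taking suffixes.

PROOF.  It suffices to remove one letter: `OK (b :: u) → OK u`.  Simulation: for states `s`, `s'` write
`s ≼ s'` if `s.1 = 3`, or `s' ` is more permissive: one of
* `s.1 ∈ {0,1,2}`, `s'.1 = 0`, and (`s'.2.1 ≤ s.2.1` if `s.1 = 0`; `s'.2.1 ≤ s.2.2.2` if `s.1 ∈ {1, 2}`);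
* `s.1 ∈ {1,2}`, `s'.1 = 1` and `s'.2.2.2 = s.2.2.2`;
* `s.1 ∈ {1,2}`, `s'.1 = 1` and `s'.2.2.2 = s.2.2.2`, or `s.1 = s'.1 = 2` and `s'.2.2.1 = s.2.2.1`, `s'.2.2.2 = s.2.2.2`.
If `s ≼ s'` then `scs C s b ≼ scs C s' b` (cases), and `s ≼ s'`, `s.1 ≠ 3` imply `s'.1 ≠ 3`.  Finally
`scs C (0,0,0,0) b ≼ (0,0,0,0)` for both letters `b`.  [When `s'.1 = 0` reads `true` it becomes `(1, _, 0, 0)`, and `s` becomes
`(1 or 2, ..., 0)`: fine.] -/
def S_OK : Prop := ∀ (C : Chk) (u v : List Bool), OK C (u ++ v) → OK C v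

/-- **ST-DEC.** `OK` words with many letters `c` are a first run followed by coded letters.

PROOF.  Induction on `T`, or: `u = rn al ++ true :: w` (first letter `c`), `al ≤ E` by scanning.  Claim by induction on `T`:
if `OK C (rn al ++ true :: w)` and `w` has at least `T + 1` letters `true`, then `w = false :: (blks C x T ++ z)`,
with `Cons C x T` (and if `T > 0` ... ).  Easiest: show by recursion on the number of `c`: `w = rn e1 ++ true :: (rn e2 ++ true :: ...)`
with all inner runs `e_k` `good` and consecutive ones compatible by `l2` (read off from `scs`: reading `true` in state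
`(1, al, 0, g)` or `(2, al, l, g)` must not give `3`).  `good e` gives `e = (x+1) * M` with `x = e / M - 1 < p`, `l1 x`
(`e % M = 0`, `0 < e ≤ p * M`), in particular `e ≥ 1`.  With `T + 2` letters `c` there are `T + 1` inner runs `e_1, ..., e_(T+1)`;
`a^(e_1) c a^(e_2) c ... c a^(e_T) c a^(e_(T+1)) c ... = a (a^(e_1 - 1) c a) (a^(e_2 - 1) c a) ... (a^(e_T - 1) c a) a^(e_(T+1) - 1) c ...`. -/
def S_DEC : Prop := ∀ (C : Chk) (T : ℕ) (u : List Bool), OK C u → T + 2 ≤ u.count true →
  ∃ (al : ℕ) (x : ℕ → ℕ) (z : List Bool), al ≤ C.E ∧ Cons C x T ∧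
    u = rn al ++ true :: false :: (blks C x T ++ z)

/-- **ST-GD.** Inner runs of `OK` words are good.

PROOF.  Scanning: after `rn al ++ [true]` the state is `(1, al, 0, 0)`, after `rn e` it is `(1, al, 0, e)`, and reading `true` must not
give `3`. -/
def S_GD : Prop := ∀ (C : Chk) (al e : ℕ) (z : List Bool),
  OK C (rn al ++ true :: (rn e ++ true :: z)) → good C e = true

/-- **ST-OKU.** Coded tapes are `OK`.

PROOF.  Let `e i = (x i + 1) * M`, `good C (e i)` for `i < T` (`(e i) / M - 1 = x i`).  By induction on `T`: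
`sc C (blks C x 0) = (0,0,0,0)`, `sc C (blks C x 1) = (1, e 0 - 1, 0, 1)`, and for `T ≥ 2`
`sc C (blks C x T) = (2, e 0 - 1, e (T-1), 1)`: from `(1 or 2, _, l, 1)` reading `e - 1` letters `a` gives last component
`e ≤ E`, then `c` (the run `e` is good, and compatible with `l = e (T-2)` if the first component is `2`), then `a`.
Then reading `rn g` with `g + 1 ≤ E` is fine. -/
def S_OKU : Prop := ∀ C : Chk, WF C → ∀ (x : ℕ → ℕ) (T : ℕ), Cons C x T → ∀ g, g + 1 ≤ C.E →
  OK C (blks C x T ++ rn g)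

/-- **ST-OKC.** Conversely, visible letters of `OK` coded words satisfy the local conditions.

PROOF.  For `1 ≤ i < T` the word `blks C x T` contains `c a^((x i + 1) * M) c`, so `good C ((x i + 1) * M)`; and if
`i + 1 < T` it contains `c a^((x i + 1) * M) c a^((x (i+1) + 1) * M) c`, and the scanner tests `l2`.
(Compute the scanner state along `blks C x T`, by induction on `T`, as in ST-OKU: if it is not `3` then for `T ≥ 1`
the state of `blks C x T` is `(t, al, l, 1)` with `t = 1` if `T = 1`, `t = 2` and `l = (x (T-1) + 1) * M` if `T ≥ 2`.) -/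
def S_OKC : Prop := ∀ C : Chk, WF C → ∀ (x : ℕ → ℕ) (T : ℕ), OK C (blks C x T) →
  ∀ i, 1 ≤ i → (i < T → x i < C.p ∧ C.l1 (x i) = true) ∧
    (i + 1 < T → C.l2 (x i) (x (i + 1)) = true)

/-- **ST-SH.** There are finitely many `OK` words with a bounded number of letters `c`.

PROOF.  Induction on the word from the right: if `OK u` then `u.length ≤ (u.count true + 1) * (E + 1)`, more precisely:
`u.length + E ≤ u.count true * (E + 1) + E + g` where `g` is the length of the last run (`g = (sc C u).2.1` if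
`(sc C u).1 = 0`, `g = (sc C u).2.2.2` if `(sc C u).1 = 1, 2`), `g ≤ E`.  Then `List.finite_length_le`. -/
def S_SH : Prop := ∀ (C : Chk) (T : ℕ), {u : List Bool | OK C u ∧ u.count true < T}.Finite

/-! ## B. Members of the star -/

/-- **ST-PC.** The pieces of `L`.

PROOF.  By definition of `acc` and `S_SC` (5), (6), (7); if one of the two words is not `OK` the pair is in `L` anyway.
For (3), (4): `al = (x+1)*M - q` with `1 ≤ q ≤ N` has `al % M = M - q`, `al / M = x`, `M - al % M = q`. -/
def S_PC : Prop := ∀ C : Chk, WF C →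
  (∀ x, x < C.p → Lp C (blk C x) [] ∧ Lp C [] (blk C x)) ∧
  (∀ u v, (¬ OK C u ∨ ¬ OK C v) → Lp C u v) ∧
  (∀ q x y q', 1 ≤ q → q ≤ C.N → x < C.p → y < C.p → 1 ≤ q' → (q' = 1 ∨ q' = C.dl q x y) →
    Lp C (rn ((x + 1) * (C.N + 1) - q) ++ true :: rn q') (rn ((y + 1) * (C.N + 1) - q) ++ true :: rn q')) ∧
  (∀ q x y z z', 1 ≤ q → q ≤ C.N → x < C.p → y < C.p → C.dl q x y = 0 →
    Lp C (rn ((x + 1) * (C.N + 1) - q) ++ true :: z) (rn ((y + 1) * (C.N + 1) - q) ++ true :: z'))

/-- **ST-VIO** (uses `S_PC`). If a thread of the checker finds a violation then all continuations are in `L*`.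

PROOF.  Let `t` be minimal with `run C x y i j t = 0` (for smaller `t'` the hypotheses hold too and
`blks C x (i+t) ++ z = blks C x (i+t') ++ z1`, so we may assume minimality); `t ≥ 1` as `run .. 0 = 1`.
Claim for `t' < t`, with `q = run C x y i j t'` (`1 ≤ q ≤ N`): `StP (U_(i+t') ++ rn (q-1)) (V_(j+t') ++ rn (q-1))`.
`t' = 0`: `i` pieces `(blk (x k), [])` and `j` pieces `([], blk (y k))` (`S_PC` (1)).  Step: append the piece (3)
`(rn ((x (i+t') + 1) * M - q) ++ true :: rn q', ...)` with `q' = dl q .. = run (t'+1) ≥ 1`: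
`rn (q-1) ++ rn ((x+1)*M - q) ++ true :: rn q' = blk C x ++ rn (q' - 1)`.  Finally, at `t' = t - 1` append the piece (4) with
`z := false :: z`: `rn (q-1) ++ rn ((x+1)*M-q) ++ true :: false :: z = blk C x ++ z`.
(Auxiliary: `StP` is closed under appending one piece on the right, and under concatenation.) -/
def S_VIO : Prop := ∀ C : Chk, WF C → ∀ (x y : ℕ → ℕ) (i j t : ℕ), Cons C x (i + t) →
  Cons C y (j + t) → run C x y i j t = 0 → ∀ z z',
    StP (Lp C) (blks C x (i + t) ++ z) (blks C y (j + t) ++ z')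

/-- **ST-REC1** (uses `S_DEC`, `S_PC`, `S_VIO`). Long `OK` words with equal admissible classes of the first run are
in `L*`, if there is no immortal pair.

PROOF.  `u = rn al' ++ true :: false :: (blks C x T ++ w)` by `S_DEC`, and `al' = al` (`u = rn al ++ true :: z`, first run);
the same for `v`, `y`.  Put `q = M - al % M`, `1 ≤ q ≤ N`, `x0 = al / M < p` (`al ≤ p * M`, `al % M ≠ 0`),
`y0 = be / M`.  First piece (`S_PC` (3) with `q' = 1`): `(rn al ++ [true, false], rn be ++ [true, false])`.  By `Mort` there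
are `i j t` with a violation, `i + t ≤ T`, `j + t ≤ T`, and `blks C x T ++ w = blks C x (i+t) ++ w'` (`blks` of a longer
prefix), so `S_VIO` gives the rest. -/
def S_REC1 : Prop := ∀ C : Chk, WF C → ∀ T, Mort C T → ∀ u v : List Bool, OK C u → OK C v →
  T + 2 ≤ u.count true → T + 2 ≤ v.count true → ∀ al be z z', u = rn al ++ true :: z →
    v = rn be ++ true :: z' → al % (C.N + 1) = be % (C.N + 1) → al % (C.N + 1) ≠ 0 →
    StP (Lp C) u v

/-! ## C. Non-members of the star -/

/-- **ST-INV** (uses `S_SC`). What a pair of `OK` words in `L` looks like.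

PROOF.  Unfold `acc`; the states are given by `S_SC` (1)-(3).
(3): `u = v = []`; (4): see `S_SC`; for al: `al ≤ E = p*M` and `al % M = r ≠ 0` give `al = (al/M + 1) * M - (M - r)`, `al / M < p`. -/
def S_INV : Prop := ∀ C : Chk, WF C → ∀ u v, OK C u → OK C v → Lp C u v →
  (∃ x, x < C.p ∧ u = blk C x ∧ v = []) ∨ (∃ y, y < C.p ∧ u = [] ∧ v = blk C y) ∨
  (∃ q x y q', 1 ≤ q ∧ q ≤ C.N ∧ x < C.p ∧ y < C.p ∧ 1 ≤ q' ∧ (q' = 1 ∨ q' = C.dl q x y) ∧
    u = rn ((x + 1) * (C.N + 1) - q) ++ true :: rn q' ∧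
    v = rn ((y + 1) * (C.N + 1) - q) ++ true :: rn q') ∨
  (∃ q x y z z', 1 ≤ q ∧ q ≤ C.N ∧ x < C.p ∧ y < C.p ∧ C.dl q x y = 0 ∧
    u = rn ((x + 1) * (C.N + 1) - q) ++ true :: z ∧ v = rn ((y + 1) * (C.N + 1) - q) ++ true :: z')

/-- **ST-EQ** (uses `S_SC`, `S_OK`, `S_GD`, `S_INV`). In a pair of `OK` words in `L*` the first runs are compatible.

PROOF.  Induction on `StP`.  `nil`: trivial (no letter `c`).  `cons`: `u = p1 ++ u'`, `v = p2 ++ v'`, all four words `OK` (`S_SC` (8),
`S_OK`); `S_INV` for `(p1, p2)`.  Cases 3, 4: both `p1`, `p2` contain `c`, so the first runs of `u`, `v` are those of `p1`, `p2`: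
`(x+1)*M - q`, `(y+1)*M - q`, both `≡ M - q ≠ 0 mod M`; this proves (1), and (2), (3) are vacuous.
Case 1: `p1 = blk x`, `p2 = []`: `u = rn ((x+1)*M-1) ++ true :: false :: u'`, `v = v'`.  (1): first run of `u` is
`(x+1)*M - 1 ≡ N`.  If `u'` contains no `c`: (2) of the induction hypothesis for `(u', v)` gives `be % M = N`.
If `u' = rn e' ++ true :: z''`: then the run `e' + 1` of `u` is good (`S_GD`), so `e' % M = N`, and (1) of the induction
hypothesis gives `N = e' % M = be % M`.  (2) is vacuous.  (3): `v` has no `c`, `u = rn al ++ true :: z`: `al = (x+1)*M - 1`, `al % M = N`.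
Case 2: symmetric. -/
def S_EQ : Prop := ∀ C : Chk, WF C → ∀ u v, StP (Lp C) u v → OK C u → OK C v →
  (∀ al z be z', u = rn al ++ true :: z → v = rn be ++ true :: z' →
    al % (C.N + 1) = be % (C.N + 1) ∧ al % (C.N + 1) ≠ 0) ∧
  (∀ be z', true ∉ u → v = rn be ++ true :: z' → be % (C.N + 1) = C.N) ∧
  (∀ al z, true ∉ v → u = rn al ++ true :: z → al % (C.N + 1) = C.N)

/-- **ST-CUT.** Reading one run of a coded tape.

PROOF.  Count the letters `true`: `blks C x i ++ rn e` has `i` of them, the left side at least `i0 + 1`; so `i0 < i` and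
`blks C x i = blks C x i0 ++ blk C (x i0) ++ r`.  Cancel `blks C x i0` and compare the first runs:
`q - 1 + al = (x i0 + 1) * M - 1` and `z = false :: (r ++ rn e)`. -/
def S_CUT : Prop := ∀ C : Chk, WF C → ∀ (x : ℕ → ℕ) (i i0 q al e : ℕ) (z : List Bool),
  1 ≤ q → q ≤ C.N → blks C x i0 ++ (rn (q - 1) ++ (rn al ++ true :: z)) = blks C x i ++ rn e →
    al = (x i0 + 1) * (C.N + 1) - q ∧ ∃ z1, z = false :: z1 ∧ blks C x (i0 + 1) ++ z1 = blks C x i ++ rn e

/-- **ST-B1** (uses `S_SC`, `S_OK`, `S_OKU`, `S_INV`, `S_CUT`). If `(x, y)` is immortal then `(U_i, V_j a)` is not in `L*`.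

PROOF.  Show by induction on `StP u v`: for all `i0 j0 q i' j' t` with `i' + t = i0`, `j' + t = j0`, `run C x y i' j' t = q`
(so `1 ≤ q ≤ N`), it is impossible that `blks C x i0 ++ (rn (q-1) ++ u) = blks C x i` and
`blks C y j0 ++ (rn (q-1) ++ v) = blks C y j ++ [false]`.  (Then take `i0 = j0 = t = 0`, `q = 1`.)
All words here are `OK` by `S_OKU` (`E ≥ 2`) with `S_SC` (8), `S_OK`.
`nil`: `u = v = []`: counting letters `true`, `i0 = i`, so `rn (q-1) = []`, and `j0 = j`, so `rn (q-1) = [false]`: contradiction.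
`cons`, piece `(p1, p2)`, `S_INV`:
Case 1: `p1 = blk C x0`: `S_CUT` with `al = (x0+1)*M - 1`: `(x0+1)*M - 1 = (x i0 + 1)*M - q`; mod `M`: `q = 1`, `x0 = x i0`, and
`blks C x (i0+1) ++ u' = blks C x i`: use the induction hypothesis for `i0 + 1, j0, q = 1`, `i' = i0+1`, `j' = j0`, `t = 0`.
Case 2: symmetric.  Case 3: pieces with `q1, x0, y0, q'`: `S_CUT` gives `(x0+1)*M - q1 = (x i0+1)*M - q`, so `q1 = q`, `x0 = x i0`;
in the same way `y0 = y j0`; `rn q' ++ u' = false :: (rn (q'-1) ++ u')`: induction hypothesis for `i0+1`, `j0+1`, `q'`: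
if `q' = dl q (x i0) (y j0)`, it is `run C x y i' j' (t+1)`; if `q' = 1`, use `i' = i0+1, j' = j0+1, t = 0`.
Case 4: `dl q (x i0) (y j0) = 0`: `run C x y i' j' (t+1) = 0`, contradicting immortality. -/
def S_B1 : Prop := ∀ C : Chk, WF C → ∀ x y : ℕ → ℕ, ImmC C x y → ∀ i j,
  ¬ StP (Lp C) (blks C x i) (blks C y j ++ [false])

/-- **ST-B2** (uses `S_SC`, `S_PC`, `S_OKC`, `S_VIO`, `S_B1`). If `L*` is recognizable and there is an immortal
pair then there is an eventually periodic one.

PROOF.  Let `Z = StP (Lp C)`, `th u = {r | Z (u ++ r.1) r.2}`, `th' v = {r | Z r.1 (v ++ r.2)}`: finite ranges.  By pigeonhole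
(`Finite.exists_ne_map_eq_of_infinite` on the indices `i ≥ 1`) `th (U_n1) = th (U_(n1+p1))` with `n1 ≥ 1`, `p1 > 0`, and
`th' (V_n2) = th' (V_(n2+p2))`, `n2 ≥ 1`.  Let `x', y'` be the eventually periodic tapes, `U', V'` their codings.
`th u = th u'` implies `th (u ++ w) = th (u' ++ w)`, so `th (U'_(n1+k*p1)) = th (U_n1)` for all `k`
(induction: `U'_(n1+(k+1)*p1) = U'_(n1+k*p1) ++ w` and `U_(n1+p1) = U_n1 ++ w` with the same `w`); same for `V'`.
So `Z (U'_(n1+k*p1)) (V'_(n2+l*p2) ++ [false]) ↔ Z (U_n1) (V_n2 ++ [false])`, false by `S_B1`.  (*)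
`Cons C x' m` for all `m`: the letters `x' i` are letters of `x`; `l2 (x' i) (x' (i+1))`: for `i = 0`: `x' 0 = x 0`, `x' 1 = x 1`
(as `n1 ≥ 1`); for `i ≥ 1`: otherwise `U'_(i+2)` is not `OK` by `S_OKC`, so no longer `U'` is `OK` (`S_SC` (8)), and the pair
in (*) is in `L` (`S_PC` (2)) for large `k`, contradiction.  The same for `y'`: `V'_j` is a prefix of `V'_j ++ [false]`.
`nf`: if `run C x' y' i j t = 0`, then by `S_VIO` `Z (U'_(i+t) ++ z) (V'_(j+t) ++ z')` for all `z`, `z'`, contradicting
(*) for large `k`, `l`. -/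
def S_B2 : Prop := ∀ C : Chk, WF C → MezN (StP (Lp C)) → ∀ x y : ℕ → ℕ, ImmC C x y →
  ∃ n1 p1 n2 p2 : ℕ, 0 < p1 ∧ 0 < p2 ∧
    ImmC C (fun i => x (if i < n1 then i else n1 + (i - n1) % p1))
      (fun i => y (if i < n2 then i else n2 + (i - n2) % p2))

/-! ## D. Recognizability -/

/-- **ST-SEC.** Sections of the star of a recognizable relation are regular.

PROOF.  Fix `u`.  For a word `v` let
`Ph v = {(i, r, e, c) | i ≤ |u|, v = v' ++ r', StP L (u.take i) v', c = (r' = []), e = th' r'}` where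
`th' r = {s : List Bool × List Bool | L s.1 (r ++ s.2)}` (finitely many values by `MezN L`); so `Ph v` is one of finitely many
sets (subsets of `{i ≤ |u|} × range th' × Bool`).  Claim: if `Ph v1 = Ph v2` then `StP L u (v1 ++ z) → StP L u (v2 ++ z)`,
so `{z | v1 ++ z ∈ A} = {z | v2 ++ z ∈ A}` for `A = {v | StP L u v}`, and the range is finite.
Splitting lemma (induction on `StP`): if `StP L U W` and `W = v1 ++ z` then there are
`U = U1 ++ P ++ U2`, `v1 = v' ++ r'`, `z = z' ++ z''` with `StP L U1 v'`, `StP L U2 z''` and (`L P (r' ++ z')` or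
(`P = []`, `r' = []`, `z' = []`)).  [`nil`: all empty.  `cons` with piece `(p1, p2)`: if `p2 = v1 ++ w` (`v1` inside the piece):
`U1 = []`, `v' = []`, `P = p1`, `r' = v1`, `z' = w`; otherwise `v1 = p2 ++ v1'`: induction hypothesis for the rest.]
Now `U1 = u.take i`, and in the first case `(i, .., th' r', ..) ∈ Ph v1 = Ph v2`: `v2 = v2' ++ r2'`, `StP L U1 v2'`,
`th' r2' = th' r'`, so `L P (r2' ++ z')`; concatenate.  In the second case the flag `c` says `r2' = []`. -/
def S_SEC : Prop := ∀ L : List Bool → List Bool → Prop, MezN L → ∀ u,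
  Reg {v | StP L u v} ∧ Reg {v | StP L v u}

/-- **ST-MZ.** Closure properties.

PROOF.  (1): `{r | Z1 .. ∨ Z2 ..} = {r | Z1 ..} ∪ {r | Z2 ..}`: the range is contained in the image of a product of two finite
sets.  (2): the sets are `{r | u ++ r.1 ∈ A} ∩ {r | r.2 ∈ B}`, similar.  (3): induction on the finite set, with (1).
(4): `{z | v ++ z = u0}` is nonempty only if `v` is a prefix of `u0`.  (5): `u.foldl f s0` has finitely many values and determines the
set; conversely: `MezN Z → Mez Z`: take `σ` = the range of `th u = {r | Z (u ++ r.1) r.2}` (finite), `s0 = th []`, `f (th u) b = th (u ++ [b])`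
(well defined: the set of `u ++ [b]` is determined by that of `u`), `τ` the same on the right, `F = {(th u, th' v) | Z u v}`;
if `th u = th u'`, `th' v = th' v'` then `Z u v ↔ Z u' v ↔ Z u' v'`. -/
def S_MZ : Prop :=
  (∀ Z1 Z2 : List Bool → List Bool → Prop, MezN Z1 → MezN Z2 → MezN (fun u v => Z1 u v ∨ Z2 u v)) ∧
  (∀ A B : Set (List Bool), Reg A → Reg B → MezN (fun u v => u ∈ A ∧ v ∈ B)) ∧
  (∀ (ι : Type) (s : Set ι) (_ : s.Finite) (Z : ι → List Bool → List Bool → Prop),
    (∀ k ∈ s, MezN (Z k)) → MezN (fun u v => ∃ k ∈ s, Z k u v)) ∧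
  (∀ u0 : List Bool, Reg {u | u = u0}) ∧
  (∀ Z : List Bool → List Bool → Prop, MezN Z ↔ Mez Z)

/-- **ST-REC** (uses `S_SC`, `S_SCF`, `S_OK`, `S_SH`, `S_PC`, `S_REC1`, `S_EQ`, `S_SEC`, `S_MZ`). If there is no
immortal pair then `L*` is recognizable.

PROOF.  `StP (Lp C) u v` holds iff one of: (a) `u` is not `OK`; (b) `v` is not `OK`; (c) for some `u0` in the finite set
`Sh = {u | OK u, u.count true < T + 2}` (`S_SH`): `u = u0` and `StP (Lp C) u0 v`; (d) the same with `v0`;
(e) for some `r` with `0 < r < M`: `u ∈ B r` and `v ∈ B r` with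
`B r = {u | OK u, T + 2 ≤ u.count true, (sc C u).2.1 % M = r}`.
`←`: (a), (b): one piece (`S_PC` (2)); (c), (d) trivial; (e) `S_REC1` (an `OK` word with a letter `c` is `rn al ++ true :: z`, `al = (sc C u).2.1`,
`S_SC` (7)).  `→`: if not (a)-(d) both words are `OK` with many `c`, then `S_EQ` gives (e).
All parts are recognizable by `S_MZ`: `{u | ¬ OK u}`, `univ`, `B r` are regular since `u ++ z ∈ B r` depends only on `sc C u` (finitely
many values) and on `min (u.count true) (T + 2)`; (c): `S_SEC` and `S_SCF`. -/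
def S_REC : Prop := ∀ C : Chk, WF C → ∀ T, Mort C T → MezN (StP (Lp C))

/-- **ST-CP.** Compactness.

PROOF.  Suppose for every `T` there are `x_T`, `y_T` with `Cons C x_T T`, `Cons C y_T T` and no violation within `T`
(`¬ Mort C T`).  Replace letters at positions `≥ T` by `0`, so all values are `< p` (`WF`: `p ≥ 1`).
Let `U` be a free ultrafilter on `ℕ` (`Filter.hyperfilter ℕ`).  For every `i` there is a unique `x i < p` with `{T | x_T i = x i} ∈ U`
(finitely many values), same for `y`.  For given `m`: the set of `T ≥ m` such that `x_T`, `y_T` agree with `x`, `y` on all positions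
`< m` is in `U`, so nonempty; hence `Cons C x m`, `Cons C y m`, and `run C x y i j t = run C x_T y_T i j t ≠ 0` if
`i + t, j + t ≤ m` (`run` depends only on the positions `< i + t`, `< j + t`).  So `(x, y)` is immortal. -/
def S_CP : Prop := ∀ C : Chk, WF C → (¬ ∃ x y, ImmC C x y) → ∃ T, Mort C T

/-! ## E. Trace monoids -/

/-- Reading of the letters `a`, `c`. -/
def rd {k : ℕ} (a c : Fin k) (e : Fin k) : Option Bool :=
  if e = a then some false else if e = c then some true else none

/-- The relation `L` seen as a word language over the alphabet of the trace monoid. -/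
def KW {k : ℕ} (a b c d : Fin k) (L : List Bool → List Bool → Prop) : Set (List (Fin k)) :=
  {w | (∀ e ∈ w, e = a ∨ e = b ∨ e = c ∨ e = d) ∧ L (w.filterMap (rd a c)) (w.filterMap (rd b d))}

/-- The trace congruence. -/
def traceCon (k : ℕ) (I : Fin k → Fin k → Prop) : Con (FreeMonoid (Fin k)) :=
  conGen fun u v => ∃ a b, I a b ∧ u = FreeMonoid.of a * FreeMonoid.of b ∧
    v = FreeMonoid.of b * FreeMonoid.of a

/-- The trace monoid. -/
abbrev TraceMonoid (k : ℕ) (I : Fin k → Fin k → Prop) : Type := (traceCon k I).Quotient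

/-- The trace of a word. -/
def trace (k : ℕ) (I : Fin k → Fin k → Prop) (w : List (Fin k)) : TraceMonoid k I :=
  ((FreeMonoid.ofList w : FreeMonoid (Fin k)) : (traceCon k I).Quotient)

/-- Recognizable subsets of a monoid. -/
def Recognizable {M : Type} [Monoid M] (L : Set M) : Prop :=
  ∃ (S : Type) (_ : Monoid S) (_ : Finite S) (h : M →* S), L = h ⁻¹' (h '' L)

/-- The letters `a`, `b`, `c`, `d` induce a 4-cycle. -/
def IsC4 {k : ℕ} (I : Fin k → Fin k → Prop) (a b c d : Fin k) : Prop :=
  a ≠ c ∧ b ≠ d ∧ I a b ∧ I b c ∧ I c d ∧ I d a ∧ ¬ I a c ∧ ¬ I b d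

/-- **ST-TR0.** The star of a trace language.

PROOF.  Let `ι1 : List Bool → List (Fin k)` map `false ↦ a`, `true ↦ c`, and `ι2`: `false ↦ b`, `true ↦ d`.
(i) For a word `w` over `a, b, c, d`: `trace w = trace (ι1 (w.filterMap (rd a c))) * trace (ι2 (w.filterMap (rd b d)))`
(induction on `w`; the letters `a, c` commute with `b, d` by `I`, symmetric), and the traces of `ι1 u` and `ι2 v` commute.
(ii) `trace w = trace w'` implies equality of `filterMap (rd a c)`, of `filterMap (rd b d)` and that all letters of `w` are in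
`{a,b,c,d}` iff those of `w'` are (`conGen` induction, or the homomorphisms `Con.lift` to free monoids and to
`Set (Fin k)`/`Prop`; `rd a c` never accepts both of two independent letters `e, f`: `I a c` is false, `I c a` is false by
symmetry, `I a a`, `I c c` are false).
`←`: induction on `StP L u v` shows `trace (ι1 u) * trace (ι2 v) ∈ closure`: for a piece `(u, v)` with `L u v` the word `ι1 u ++ ι2 v` is in
`KW a b c d L`, and `trace (ι1 (u ++ u')) * trace (ι2 (v ++ v')) = (trace (ι1 u) * trace (ι2 v)) * (trace (ι1 u') * trace (ι2 v'))`; use (i).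
`→`: `Submonoid.closure_induction` for the predicate `m ↦ ∃ w ∈ KW a b c d (StP L), m = trace w` (`w = []` for `1`; concatenation; `StP L` is
closed under componentwise concatenation and contains `L`), then (ii). -/
def S_TR0 : Prop := ∀ (k : ℕ) (I : Fin k → Fin k → Prop), (∀ e f, I e f → I f e) → (∀ e, ¬ I e e) →
  ∀ (a b c d : Fin k), IsC4 I a b c d → ∀ (L : List Bool → List Bool → Prop) (w : List (Fin k)),
    trace k I w ∈ Submonoid.closure (trace k I '' KW a b c d L) ↔ w ∈ KW a b c d (StP L)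

/-- **ST-TR1** (uses `S_TR0`). From the trace monoid to relations of words.

PROOF.  Let `ι1 : List Bool → List (Fin k)` map `false ↦ a`, `true ↦ c`, and `ι2`: `false ↦ b`, `true ↦ d`.  By `S_TR0`
`trace (ι1 u ++ ι2 v) ∈ closure ↔ StP L u v`.  Given `h : TraceMonoid →* S`, `S` finite, with
`closure = h⁻¹' (h '' closure)`: `{r | StP L (u ++ r.1) r.2}` depends only on `h (trace (ι1 u))`, since
`StP L (u ++ r.1) r.2 ↔ h (trace (ι1 u)) * h (trace (ι1 r.1)) * h (trace (ι2 r.2)) ∈ h '' closure`; the same on the right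
(`trace (ι1 r.1) * trace (ι2 (v ++ r.2)) = trace (ι2 v) * trace (ι1 r.1) * trace (ι2 r.2)`). -/
def S_TR1 : Prop := ∀ (k : ℕ) (I : Fin k → Fin k → Prop), (∀ e f, I e f → I f e) → (∀ e, ¬ I e e) →
  ∀ (a b c d : Fin k), IsC4 I a b c d → ∀ L : List Bool → List Bool → Prop,
    Recognizable (Submonoid.closure (trace k I '' KW a b c d L) : Set (TraceMonoid k I)) →
    MezN (StP L)

/-- **ST-TR2** (uses `S_TR0`). From relations of words to the trace monoid.

PROOF.  By `S_TR0`, `trace w ∈ closure ↔ w ∈ KW a b c d (StP L)` (and every trace is `trace w`).  Let `σ, τ, f, s0, g, t0, F` be given by `Mez (StP L)`.  Let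
`Om = Option (σ × τ)` and let the letter `e` act on `Om` by: `none ↦ none`; `some (s, t) ↦ some (f s false, t)` if `e = a`,
`some (f s true, t)` if `e = c`, `some (s, g t false)` if `e = b`, `some (s, g t true)` if `e = d`, `none` otherwise.
Actions of independent letters commute (`a, c` are not independent, `b, d` are not independent, a letter outside
`{a,b,c,d}` sends everything to `none`).  So there is a monoid homomorphism `h : TraceMonoid →* (Function.End Om)ᵐᵒᵖ`
(`Con.lift`, `FreeMonoid.lift`) with `(h (trace w)).unop = ` reading `w`; and `some (s0, t0)` is sent by `trace w` to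
`some (foldl f s0 (filterMap (rd a c) w), foldl g t0 (filterMap (rd b d) w))` if all letters of `w` are in `{a,b,c,d}`, to `none`
otherwise.  So membership of `trace w` in the closure depends only on `h (trace w)`, which is
`closure = h ⁻¹' (h '' closure)`. -/
def S_TR2 : Prop := ∀ (k : ℕ) (I : Fin k → Fin k → Prop), (∀ e f, I e f → I f e) → (∀ e, ¬ I e e) →
  ∀ (a b c d : Fin k), IsC4 I a b c d → ∀ L : List Bool → List Bool → Prop, Mez (StP L) →
    Recognizable (Submonoid.closure (trace k I '' KW a b c d L) : Set (TraceMonoid k I))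

/-! ## F. Codes -/

/-- Transition of the automaton with table `c.1`. -/
def next {k : ℕ} (c : List (List ℕ) × List ℕ) (q : ℕ) (a : Fin k) : ℕ := (c.1.getD q []).getD a 0

/-- The code describes a finite automaton over the trace monoid: it has a state `0`, all entries are states,
and independent letters commute. -/
def IsAut {k : ℕ} (I : Fin k → Fin k → Prop) (c : List (List ℕ) × List ℕ) : Prop :=
  0 < c.1.length ∧ (∀ q < c.1.length, ∀ a : Fin k, next c q a < c.1.length) ∧
    ∀ q < c.1.length, ∀ a b : Fin k, I a b → next c (next c q a) b = next c (next c q b) a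

/-- The accepted traces. -/
def accd {k : ℕ} (I : Fin k → Fin k → Prop) (c : List (List ℕ) × List ℕ) : Set (TraceMonoid k I) :=
  {m | ∃ w : List (Fin k), trace k I w = m ∧ w.foldl (next c) 0 ∈ c.2}

/-- Number of a scanner state, all components `< A` (first one `< 4`). -/
def enc (A : ℕ) (s : ℕ × ℕ × ℕ × ℕ) : ℕ := s.1 + 4 * (s.2.1 + A * (s.2.2.1 + A * s.2.2.2))

/-- Scanner state with a given number. -/
def dec (A x : ℕ) : ℕ × ℕ × ℕ × ℕ := (x % 4, x / 4 % A, x / 4 / A % A, x / 4 / A / A)

/-- Number of scanner states. -/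
def BB (C : Chk) : ℕ := 4 * ((C.E + 1) * (C.E + 1) * (C.E + 1))

/-- Entry of the table: the state `2 * (xs + BB * xt)` is the pair of the scanner states `xs`, `xt`, odd states are
dead; `h = 0, 1, 2, 3` for the letters `a, b, c, d`, other `h` for the other letters. -/
def ent (C : Chk) (x h : ℕ) : ℕ :=
  if x % 2 = 1 then 1
  else if h = 0 then 2 * (enc (C.E + 1) (scs C (dec (C.E + 1) (x / 2 % BB C)) false) + BB C * (x / 2 / BB C))
  else if h = 1 then 2 * (x / 2 % BB C + BB C * enc (C.E + 1) (scs C (dec (C.E + 1) (x / 2 / BB C)) false))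
  else if h = 2 then 2 * (enc (C.E + 1) (scs C (dec (C.E + 1) (x / 2 % BB C)) true) + BB C * (x / 2 / BB C))
  else if h = 3 then 2 * (x / 2 % BB C + BB C * enc (C.E + 1) (scs C (dec (C.E + 1) (x / 2 / BB C)) true))
  else 1

/-- The code; `H` lists the numbers `h` of the letters `0, ..., k-1`. -/
def codeC (H : List ℕ) (C : Chk) : List (List ℕ) × List ℕ :=
  ((List.range (2 * (BB C * BB C))).map fun x => H.map fun h => ent C x h,
    (List.range (BB C * BB C)).filterMap fun x =>
      if acc C (dec (C.E + 1) (x % BB C)) (dec (C.E + 1) (x / BB C)) = true then some (2 * x) else none)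

/-- The list of the numbers of the letters. -/
def HL {k : ℕ} (a b c d : Fin k) : List ℕ :=
  (List.finRange k).map fun e => if e = a then 0 else if e = b then 1 else if e = c then 2
    else if e = d then 3 else 4

/-- **ST-P1.** The scanner step of the family `CT` is primitive recursive.

PROOF.  `(CT D p G T1 T2 n).E = p * (D * (n + 2) + 1)` etc.: sums, products, quotients, remainders, comparisons, `ite`, `List.getD`
of constant lists: `Primrec`. -/
def S_P1 : Prop := ∀ (D p : ℕ) (G : List ℕ) (T1 T2 : List Bool),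
  Primrec fun r : ℕ × (ℕ × ℕ × ℕ × ℕ) × Bool => scs (CT D p G T1 T2 r.1) r.2.1 r.2.2

/-- **ST-P2.** The acceptance test of the family `CT` is primitive recursive. -/
def S_P2 : Prop := ∀ (D p : ℕ) (G : List ℕ) (T1 T2 : List Bool),
  Primrec fun r : ℕ × (ℕ × ℕ × ℕ × ℕ) × (ℕ × ℕ × ℕ × ℕ) => acc (CT D p G T1 T2 r.1) r.2.1 r.2.2

/-- **ST-P3** (uses `S_P1`, `S_P2`). The code of the family `CT` is computable. -/
def S_P3 : Prop := ∀ (D p : ℕ) (G : List ℕ) (T1 T2 : List Bool) (H : List ℕ),
  Computable fun n : ℕ => codeC H (CT D p G T1 T2 n)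

/-- Bounded scanner states. -/
def Bd (A : ℕ) (s : ℕ × ℕ × ℕ × ℕ) : Prop := s.1 < 4 ∧ s.2.1 < A ∧ s.2.2.1 < A ∧ s.2.2.2 < A

/-- **ST-P40.** Arithmetic of `enc`, `dec`.

PROOF.  Mixed radix numbers; `scs` increments a component only if it is `< E`. -/
def S_P40 : Prop :=
  (∀ A s, Bd A s → enc A s < 4 * (A * A * A) ∧ dec A (enc A s) = s) ∧
  (∀ A x, 0 < A → x < 4 * (A * A * A) → Bd A (dec A x) ∧ enc A (dec A x) = x) ∧
  (∀ (C : Chk) s b, Bd (C.E + 1) s → Bd (C.E + 1) (scs C s b))

/-- **ST-P4a** (uses `S_P40`). The code is an automaton over the trace monoid.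

PROOF.  Write `A = E + 1`, `B = BB C = 4 * (A * A * A)`.  For `x < 2 * (B * B)` every entry `ent C x h` is `< 2 * (B * B)`
(`x / 2 % B < B`, `x / 2 / B < B`; `S_P40`), the table has `2 * (B * B) > 0` rows of length `k`, and
`next (codeC ..) x e = ent C x (number of e)`.  Commutation: for `I e f`: if one of `e, f` is not in `{a,b,c,d}` both orders give `1`
(`ent C 1 h = 1`; `ent C x 4 = 1`); otherwise, as `I` is irreflexive, symmetric and `¬ I a c`, `¬ I b d`, one of them is in `{a, c}`,
the other one in `{b, d}`: they act on different components (and dead states stay dead). -/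
def S_P4a : Prop := ∀ (C : Chk) (k : ℕ) (I : Fin k → Fin k → Prop), (∀ e f, I e f → I f e) →
  (∀ e, ¬ I e e) → ∀ (a b c d : Fin k), IsC4 I a b c d → IsAut I (codeC (HL a b c d) C)

/-- **ST-P4b** (uses `S_P40`). The code recognises the right language.

PROOF.  Reading `w` from state `0` (`dec A 0 = (0,0,0,0)`, both components): if all letters of `w` are in `{a,b,c,d}` the state is
`2 * (enc A (sc C u) + B * enc A (sc C v))` with `u = w.filterMap (rd a c)`, `v = w.filterMap (rd b d)`, otherwise it is `1`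
(induction on `w` from the right; `a, b, c, d` are distinct).  The accepting list contains exactly the numbers `2 * x`, `x < B * B`,
with `acc C (dec A (x % B)) (dec A (x / B))`. -/
def S_P4b : Prop := ∀ (C : Chk) (k : ℕ) (a b c d : Fin k), a ≠ b → a ≠ c → a ≠ d → b ≠ c → b ≠ d → c ≠ d →
    ∀ w : List (Fin k), w.foldl (next (codeC (HL a b c d) C)) 0 ∈ (codeC (HL a b c d) C).2 ↔
      w ∈ KW a b c d (Lp C)

/-- The code is correct. -/
def S_P4 : Prop := ∀ (C : Chk) (k : ℕ) (I : Fin k → Fin k → Prop), (∀ e f, I e f → I f e) →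
  (∀ e, ¬ I e e) → ∀ (a b c d : Fin k), IsC4 I a b c d →
    IsAut I (codeC (HL a b c d) C) ∧
    ∀ w : List (Fin k), w.foldl (next (codeC (HL a b c d) C)) 0 ∈ (codeC (HL a b c d) C).2 ↔
      w ∈ KW a b c d (Lp C)

theorem p4_of (ha : S_P4a) (hb : S_P4b) : S_P4 := by
  intro C k I hs hi a b c d h4
  refine ⟨ha C k I hs hi a b c d h4, ?_⟩
  obtain ⟨hac, hbd, h1, h2, h3, h5, -, -⟩ := h4
  refine hb C k a b c d ?_ hac ?_ ?_ hbd ?_
  · rintro rfl; exact hi _ h1
  · rintro rfl; exact hi _ h5
  · rintro rfl; exact hi _ h2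
  · rintro rfl; exact hi _ h3

end Pool.Agent.H724.ST
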